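import Pool.Agent.MP_5c28a4_al.H89S.Spec

/-!
Ultrapowers of groups and of representations.
-/

set_option autoImplicit false

namespace Pool.Agent.MP_5c28a4_al.H89S

open scoped commutatorElement

namespace BUltA

open Filter

theorem surj {α : Type} (x : Ult α) : ∃ y : ℕ → α, x = germ y :=
  Germ.inductionOn x fun y => ⟨y, rfl⟩

theorem eq {α : Type} {x y : ℕ → α} : germ x = germ y ↔ ∀ᶠ n in hyperfilter ℕ, x n = y n :=
  Germ.coe_eq

variable {G : Type} [Group G]

theorem mem {H : Subgroup G} {x : ℕ → G} :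
    germ x ∈ star H ↔ ∀ᶠ n in hyperfilter ℕ, x n ∈ H := Germ.liftPred_coe

theorem germ_one : (germ fun _ => (1 : G)) = 1 := rfl

theorem eq_one {x : ℕ → G} : germ x = 1 ↔ ∀ᶠ n in hyperfilter ℕ, x n = 1 := Germ.coe_eq

theorem mono {H K : Subgroup G} (h : H ≤ K) : star H ≤ star K := fun x hx => by
  obtain ⟨y, rfl⟩ := surj x
  exact mem.2 ((mem.1 hx).mono fun _ h1 => h h1)

theorem normal {H : Subgroup G} (h : H.Normal) : (star H).Normal := ⟨fun x hx g => by
  obtain ⟨y, rfl⟩ := surj x
  obtain ⟨z, rfl⟩ := surj g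
  exact (mem (x := fun n => z n * y n * (z n)⁻¹)).2
    ((mem.1 hx).mono fun n h1 => h.conj_mem _ h1 _)⟩

theorem bot : star (⊥ : Subgroup G) = ⊥ := by
  ext x
  obtain ⟨y, rfl⟩ := surj x
  simp only [mem, Subgroup.mem_bot, eq_one]

theorem top : star (⊤ : Subgroup G) = ⊤ := by
  ext x
  obtain ⟨y, rfl⟩ := surj x
  simp only [mem, Subgroup.mem_top, eventually_true]

theorem inf (H K : Subgroup G) : star (H ⊓ K) = star H ⊓ star K := by
  ext x
  obtain ⟨y, rfl⟩ := surj x
  simp only [mem, Subgroup.mem_inf, eventually_and]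

theorem sup (H K : Subgroup G) (hK : K.Normal) : star (H ⊔ K) = star H ⊔ star K := by
  refine le_antisymm (fun x hx => ?_) (sup_le (mono le_sup_left) (mono le_sup_right))
  obtain ⟨y, rfl⟩ := surj x
  have h1 : ∀ n, ∃ a ∈ H, ∃ b ∈ K, y n ∈ H ⊔ K → y n = a * b := fun n => by
    by_cases h : y n ∈ H ⊔ K
    · obtain ⟨a, ha, b, hb, h2⟩ := Subgroup.mem_sup_of_normal_right.1 h
      exact ⟨a, ha, b, hb, fun _ => h2.symm⟩
    · exact ⟨1, one_mem _, 1, one_mem _, fun h2 => absurd h2 h⟩
  choose a ha b hb h2 using h1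
  have h3 : germ y = germ a * germ b :=
    (eq (y := fun n => a n * b n)).2 ((mem.1 hx).mono fun n h => h2 n h)
  rw [h3]
  exact Subgroup.mul_mem_sup (mem.2 (Eventually.of_forall ha)) (mem.2 (Eventually.of_forall hb))

theorem comm (H K : Subgroup G) : ⁅star H, star K⁆ ≤ star ⁅H, K⁆ :=
  Subgroup.commutator_le.2 fun x hx g hg => by
    obtain ⟨y, rfl⟩ := surj x
    obtain ⟨z, rfl⟩ := surj g
    exact (mem (x := fun n => ⁅y n, z n⁆)).2 (((mem.1 hx).and (mem.1 hg)).mono fun n h =>
      Subgroup.commutator_mem_commutator h.1 h.2)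

theorem lcs (H : Subgroup G) (n : ℕ) :
    (star H).lowerCentralSeries n ≤ star (H.lowerCentralSeries n) := by
  induction n with
  | zero => exact le_rfl
  | succ n ih => exact (Subgroup.commutator_mono ih le_rfl).trans (comm _ _)

theorem lift {I : Type} (x : ℕ → I → G) (w : FreeGroup I) :
    FreeGroup.lift (fun i => germ fun n => x n i) w = germ fun n => FreeGroup.lift (x n) w := by
  have : FreeGroup.lift (fun i => germ fun n => x n i) =
      (Germ.coeMulHom _).comp (MonoidHom.pi fun n => FreeGroup.lift (x n)) := by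
    ext i
    simp only [FreeGroup.lift_apply_of, MonoidHom.comp_apply]
    exact eq.2 (Eventually.of_forall fun n => by simp)
  rw [this]
  rfl

/-- homomorphisms from a free group are given by sequences of homomorphisms -/
theorem hom {I : Type} (f : FreeGroup I →* Ult G) :
    ∃ φ : ℕ → FreeGroup I →* G, ∀ w, f w = germ fun n => φ n w := by
  choose y hy using fun i => surj (f (FreeGroup.of i))
  refine ⟨fun n => FreeGroup.lift fun i => y i n, fun w => ?_⟩
  rw [← lift]
  congr 1
  ext i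
  rw [FreeGroup.lift_apply_of, hy]

theorem inV {S : Set FF} (h : InV S G) : InV S (Ult G) := fun w hw f => by
  obtain ⟨φ, hφ⟩ := hom f
  rw [hφ]
  exact eq_one.2 (Eventually.of_forall fun n => h w hw _)

theorem solv (h : Group.IsSolvable G) : Group.IsSolvable (Ult G) := by
  obtain ⟨n, hn⟩ := h.solvable
  have h1 : ∀ m, derivedSeries (Ult G) m ≤ star (derivedSeries G m) := by
    intro m
    induction m with
    | zero => exact top.ge
    | succ m ih => exact (Subgroup.commutator_mono ih ih).trans (comm _ _)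
  exact ⟨n, le_bot_iff.1 ((h1 n).trans (hn ▸ bot.le))⟩

theorem tower {h : ℕ} {q : ℕ → ℕ} {L : ℕ → Subgroup G} (t : Tower h q L) :
    Tower h q fun a => star (L a) where
  normal a := normal (t.normal a)
  anti a := mono (t.anti a)
  bot := by rw [t.bot, bot]
  prime := t.prime
  comm a := (comm _ _).trans (mono (t.comm a))
  pow a x hx := by
    obtain ⟨y, rfl⟩ := surj x
    exact (mem (x := fun n => y n ^ q a)).2 ((mem.1 hx).mono fun n h1 => t.pow a _ h1)

theorem st {X : Subgroup G} {c : ℕ} (h : STc X c) : STc (star X) c := by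
  intro p hp P hP hf hp'
  choose y hy using fun x : P => surj (x : Ult G)
  have h1 : ∀ᶠ n in hyperfilter ℕ, ∀ x, y x n ∈ X :=
    eventually_all.2 fun x => mem.1 (hy x ▸ hP x.2)
  have h2 : ∀ᶠ n in hyperfilter ℕ, ∀ x x', y (x * x') n = y x n * y x' n :=
    eventually_all.2 fun x => eventually_all.2 fun x' =>
      (eq (y := fun n => y x n * y x' n)).1 (by
        rw [← hy, Subgroup.coe_mul, hy, hy]
        rfl)
  rw [← Subgroup.top_subtype_lowerCentralSeries, eq_bot_iff]
  rintro _ ⟨z, hz, rfl⟩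
  rw [Subgroup.mem_bot, Subgroup.subtype_apply, hy, eq_one]
  filter_upwards [h1, h2] with n h3 h4
  obtain ⟨φ, hφ⟩ : ∃ φ : P →* G, ∀ x, φ x = y x n :=
    ⟨MonoidHom.mk' (fun x => y x n) h4, fun _ => rfl⟩
  have h5 := h p hp φ.range (by
    rintro _ ⟨x, rfl⟩
    rw [hφ]
    exact h3 x) (Finite.of_surjective _ φ.rangeRestrict_surjective)
    (hp'.of_surjective _ φ.rangeRestrict_surjective)
  rw [MonoidHom.range_eq_map, ← Subgroup.map_lowerCentralSeries] at h5
  rw [← hφ]
  exact Subgroup.mem_bot.1 (h5.le ⟨z, hz, rfl⟩)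

variable {A : Type} [AddCommGroup A]

/-- the action of one element -/
noncomputable def act (ρ : Representation ℤ G A) (x : Ult G) : Ult A →ₗ[ℤ] Ult A where
  toFun := Germ.map₂ (fun g a => ρ g a) x
  map_add' a b := by
    obtain ⟨y, rfl⟩ := surj x
    obtain ⟨a, rfl⟩ := surj a
    obtain ⟨b, rfl⟩ := surj b
    exact (eq (x := fun n => ρ (y n) (a n + b n)) (y := fun n => ρ (y n) (a n) + ρ (y n) (b n))).2
      (Eventually.of_forall fun n => map_add _ _ _)
  map_smul' r a := by
    obtain ⟨y, rfl⟩ := surj x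
    obtain ⟨a, rfl⟩ := surj a
    exact (eq (x := fun n => ρ (y n) (r • a n)) (y := fun n => r • ρ (y n) (a n))).2
      (Eventually.of_forall fun n => map_smul _ _ _)

/-- the ultrapower of a representation -/
noncomputable def ur (ρ : Representation ℤ G A) : Representation ℤ (Ult G) (Ult A) where
  toFun := act ρ
  map_one' := LinearMap.ext fun a => by
    obtain ⟨a, rfl⟩ := surj a
    exact (eq (x := fun n => ρ 1 (a n)) (y := a)).2 (Eventually.of_forall fun n => by simp)
  map_mul' x x' := LinearMap.ext fun a => by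
    obtain ⟨y, rfl⟩ := surj x
    obtain ⟨y', rfl⟩ := surj x'
    obtain ⟨a, rfl⟩ := surj a
    exact (eq (x := fun n => ρ (y n * y' n) (a n)) (y := fun n => ρ (y n) (ρ (y' n) (a n)))).2
      (Eventually.of_forall fun n => by simp)

theorem sat {ρ : Representation ℤ G A} {u : FF →₀ ℤ} (h : Sat u ρ) : Sat u (ur ρ) := by
  intro f
  obtain ⟨φ, hφ⟩ := hom f
  refine LinearMap.ext fun a => ?_
  obtain ⟨a, rfl⟩ := surj a
  have h1 : ∀ w, (u w • ur ρ (f w)) (germ a) =
      Germ.coeAddHom _ fun n => (u w • ρ (φ n w)) (a n) := fun w => by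
    rw [hφ]
    rfl
  rw [Finsupp.sum, LinearMap.sum_apply]
  refine (Finset.sum_congr rfl fun w _ => h1 w).trans ?_
  rw [← map_sum]
  refine (congrArg _ (funext fun n => ?_)).trans (map_zero _)
  have := LinearMap.congr_fun (h (φ n)) (a n)
  rw [Finsupp.sum, LinearMap.sum_apply] at this
  rw [Finset.sum_apply]
  exact this

end BUltA

theorem bUlt : BUlt where
  surj _ := BUltA.surj
  eq _ _ _ := BUltA.eq
  mem _ _ _ _ := BUltA.mem
  cst _ _ _ _ := BUltA.mem.trans Filter.eventually_const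
  normal _ _ _ := BUltA.normal
  bot _ _ := BUltA.bot
  inf _ _ := BUltA.inf
  sup _ _ := BUltA.sup
  comm _ _ := BUltA.comm
  lcs _ _ := BUltA.lcs
  lift _ _ _ := BUltA.lift
  inV _ _ _ := BUltA.inV
  solv _ _ := BUltA.solv
  tower _ _ _ _ _ := BUltA.tower
  st _ _ _ _ := BUltA.st
  rep _ _ _ _ ρ := ⟨BUltA.ur ρ, fun _ _ => rfl, fun _ => BUltA.sat⟩

end Pool.Agent.MP_5c28a4_al.H89S
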